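import Mathlib
import Pool.Agent.X262.LOS.ConstR

set_option autoImplicit false

/-!
# Consecutive pairs of almost primes with a given difference

The pairs `(n, n + 2 m)` of integers without prime factors `≤ X ^ (1 / r)`, with `n` in a residue class modulo `q`, in
arbitrary short intervals, uniformly in `m`, in `q` and in the class: the number of the sets of such pairs with given
distances, the Poisson law for the further ones, and the number of the sets of consecutive ones.
-/

namespace Pool.Agent.Results.MP_9227d9_nt.ConsecutivePairs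

open Finset Filter

/-- all prime factors of `n` are larger than `X ^ (1 / r)` -/
def AlmostPrime (X r n : ℕ) : Prop := ∀ p : ℕ, p.Prime → p ∣ n → (X : ℝ) ^ (1 / (r : ℝ)) < p

/-- `q n + a` and `q n + a + 2 m` are almost primes -/
def Pair (m q a X r n : ℕ) : Prop :=
  AlmostPrime X r (q * n + a) ∧ AlmostPrime X r (q * n + a + 2 * m)

/-- the number of the residue classes modulo `p` of the numbers `q h` and `q h + 2 m`, `h ∈ H` -/
def nu (m q : ℕ) (H : Finset ℕ) (p : ℕ) : ℕ :=
  ((H ×ˢ ({0, 2 * m} : Finset ℕ)).image (fun x => (q * x.1 + x.2) % p)).card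

/-- the expected density of the `n` for which all `n + h`, `h ∈ H`, give pairs -/
noncomputable def density (m q X r : ℕ) (H : Finset ℕ) : ℝ :=
  ∏ p ∈ (Icc 1 ⌊(X : ℝ) ^ (1 / (r : ℝ))⌋₊).filter (fun p => p.Prime ∧ ¬ p ∣ q),
    (1 - (nu m q H p : ℝ) / p)

/-- the density of the pairs -/
noncomputable def V (m q X r : ℕ) : ℝ := density m q X r {0}

open Classical in
/-- the number of the `n` in `(Z, Z + Y]` for which all `n + h`, `h ∈ H`, give pairs -/
noncomputable def tuples (m q a X r : ℕ) (H : Finset ℕ) (Z Y : ℕ) : ℕ :=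
  ((Ioc Z (Z + Y)).filter (fun n => ∀ h ∈ H, Pair m q a X r (n + h))).card

open Classical in
/-- the number of the `t` in `[1, T]`, not in `H`, for which `n + t` gives a pair -/
noncomputable def further (m q a X r : ℕ) (H : Finset ℕ) (T n : ℕ) : ℕ :=
  ((Icc 1 T).filter (fun t => t ∉ H ∧ Pair m q a X r (n + t))).card

open Classical in
/-- the number of the `n` in `(Z, Z + Y]` for which all `n + h`, `h ∈ H`, give pairs and the number
of the further ones is in `A` -/
noncomputable def tuplesWith (m q a X r : ℕ) (H : Finset ℕ) (T : ℕ) (A : Finset ℕ) (Z Y : ℕ) : ℕ :=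
  ((Ioc Z (Z + Y)).filter (fun n => (∀ h ∈ H, Pair m q a X r (n + h)) ∧
    further m q a X r H T n ∈ A)).card

open Classical in
/-- the number of the `n` in `(Z, Z + Y]` for which the `n + t`, `0 ≤ t ≤ max H`, which give pairs
are exactly the `n + h`, `h ∈ H` -/
noncomputable def consecutive (m q a X r : ℕ) (H : Finset ℕ) (Z Y : ℕ) : ℕ :=
  ((Ioc Z (Z + Y)).filter (fun n => ∀ t, t ≤ H.sup id → (Pair m q a X r (n + t) ↔ t ∈ H))).card

/-- the probability that a Poisson variable with mean `x` is in `A` -/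
noncomputable def poisson (x : ℝ) (A : Finset ℕ) : ℝ :=
  ∑ j ∈ A, Real.exp (-x) * x ^ j / j.factorial

open Pool.Agent.X262.LOS Pool.Agent.H373R2.T7 Pool.Agent.W123.RP Pool.Agent.W123.RU
open Pool.Agent.TH464.PO Pool.Agent.Y879.AP

lemma density_eq (m q a X r : ℕ) (H : Finset ℕ) :
    density m q X r H = Vq (QH (QC q a {0, 2 * m}) H) ⌊(X : ℝ) ^ (1 / (r : ℝ))⌋₊ := by
  unfold density Vq pz
  rw [← filter_filter, Finset.prod_filter]
  refine Finset.prod_congr rfl fun p hp => ?_
  rw [mem_filter] at hp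
  by_cases hpa : p ∣ q
  · rw [if_neg (not_not.2 hpa), QC_nuH0 q a _ H p hpa, Nat.cast_zero, zero_div, sub_zero]
  · rw [if_pos hpa, QC_nuH q a _ H p hp.2 hpa]
    rfl

lemma V_eq (m q a X r : ℕ) : V m q X r = Vq (QC q a {0, 2 * m}) ⌊(X : ℝ) ^ (1 / (r : ℝ))⌋₊ := by
  unfold V
  rw [density_eq m q a]
  unfold Vq
  refine Finset.prod_congr rfl fun p _ => ?_
  rw [← QC_nu0]

lemma cop_aux (q a : ℕ) (hqa : Nat.Coprime q a) (n p : ℕ) (hp : p.Prime) (hd : p ∣ q * n + a) :
    ¬ p ∣ q := by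
  intro hpq
  have h1 : p ∣ a := (Nat.dvd_add_right (Dvd.dvd.mul_right hpq n)).1 hd
  have h2 := Nat.dvd_gcd hpq h1
  rw [Nat.Coprime] at hqa
  rw [hqa] at h2
  exact hp.one_lt.ne' (Nat.dvd_one.1 h2)

lemma pair_iff (m q a X r n : ℕ) (hqa : Nat.Coprime q a) (hqa' : Nat.Coprime q (a + 2 * m)) :
    Sf (QC q a {0, 2 * m}) ⌊(X : ℝ) ^ (1 / (r : ℝ))⌋₊ n ↔ Pair m q a X r n := by
  unfold Sf Pair AlmostPrime QC
  constructor
  · intro h
    refine ⟨fun p hp hd => ?_, fun p hp hd => ?_⟩
    · by_contra hcon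
      rw [not_lt] at hcon
      exact h p (mem_pz.2 ⟨Nat.le_floor hcon, hp⟩) ⟨cop_aux q a hqa n p hp hd, 0,
        mem_insert_self _ _, by rwa [add_zero]⟩
    · by_contra hcon
      rw [not_lt] at hcon
      refine h p (mem_pz.2 ⟨Nat.le_floor hcon, hp⟩) ⟨?_, 2 * m,
        mem_insert_of_mem (mem_singleton_self _), hd⟩
      rw [add_assoc] at hd
      exact cop_aux q (a + 2 * m) hqa' n p hp hd
  · rintro ⟨h, h'⟩ p hp ⟨_, d, hdD, hd⟩
    rw [mem_pz] at hp
    have h2 := (Nat.le_floor_iff (by positivity)).1 hp.1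
    rw [mem_insert, mem_singleton] at hdD
    rcases hdD with rfl | rfl
    · rw [add_zero] at hd
      have h1 := h p hp.2 hd
      linarith
    · have h1 := h' p hp.2 hd
      linarith

lemma base_iff (m q a X r : ℕ) (hqa : Nat.Coprime q a) (hqa' : Nat.Coprime q (a + 2 * m))
    (H : Finset ℕ) (n : ℕ) :
    Sf (QH (QC q a {0, 2 * m}) H) ⌊(X : ℝ) ^ (1 / (r : ℝ))⌋₊ n ↔
      ∀ h ∈ H, Pair m q a X r (n + h) := by
  rw [sf_QH]
  exact forall₂_congr fun h _ => pair_iff m q a X r (n + h) hqa hqa'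

lemma tuples_eq (m q a X r : ℕ) (hqa : Nat.Coprime q a) (hqa' : Nat.Coprime q (a + 2 * m))
    (H : Finset ℕ) (Z Y : ℕ) :
    tuples m q a X r H Z Y = Nb (QC q a {0, 2 * m}) ⌊(X : ℝ) ^ (1 / (r : ℝ))⌋₊ H Z Y := by
  unfold tuples Nb
  apply card_iff
  intro n _
  rw [base_iff m q a X r hqa hqa' H n]

lemma further_eq (m q a X r : ℕ) (hqa : Nat.Coprime q a) (hqa' : Nat.Coprime q (a + 2 * m))
    (H : Finset ℕ) (T n : ℕ) :
    further m q a X r H T n =
      Nn (QC q a {0, 2 * m}) ⌊(X : ℝ) ^ (1 / (r : ℝ))⌋₊ (Icc 1 T \ H) n := by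
  classical
  unfold further Nn
  congr 1
  ext t
  rw [mem_filter, mem_filter, Finset.mem_sdiff, and_assoc, pair_iff m q a X r (n + t) hqa hqa']

lemma tuplesWith_eq (m q a X r : ℕ) (hqa : Nat.Coprime q a) (hqa' : Nat.Coprime q (a + 2 * m))
    (H : Finset ℕ) (T : ℕ) (A : Finset ℕ) (Z Y : ℕ) :
    tuplesWith m q a X r H T A Z Y =
      NA (QC q a {0, 2 * m}) ⌊(X : ℝ) ^ (1 / (r : ℝ))⌋₊ H T A Z Y := by
  unfold tuplesWith NA
  apply card_iff
  intro n _
  rw [base_iff m q a X r hqa hqa' H n, further_eq m q a X r hqa hqa' H T n]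

lemma poisson_zero (x : ℝ) : poisson x {0} = Real.exp (-x) := by
  unfold poisson
  rw [Finset.sum_singleton, pow_zero, mul_one, Nat.factorial_zero, Nat.cast_one, div_one]

lemma consecutive_eq (m q a X r : ℕ) (H : Finset ℕ) (h0 : 0 ∈ H) (Z Y : ℕ) :
    consecutive m q a X r H Z Y = tuplesWith m q a X r H (H.sup id) {0} Z Y := by
  classical
  unfold consecutive tuplesWith
  apply card_iff
  intro n _
  rw [mem_singleton]
  unfold further
  rw [card_eq_zero, Finset.filter_eq_empty_iff]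
  constructor
  · intro h1
    refine ⟨?_, ?_⟩
    · intro h hh
      exact (h1 h (Finset.le_sup (f := id) hh)).2 hh
    · rintro t ht ⟨h4, h5⟩
      rw [mem_Icc] at ht
      exact h4 ((h1 t ht.2).1 h5)
  · rintro ⟨h1, h2⟩ t ht
    constructor
    · intro h3
      by_contra h4
      have ht0 : t ≠ 0 := by
        rintro rfl
        exact h4 h0
      exact h2 (mem_Icc.2 ⟨by omega, ht⟩) ⟨h4, h3⟩
    · exact h1 t

lemma further_mono (m q a X r : ℕ) (H : Finset ℕ) (T T' n : ℕ) (h : T ≤ T') :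
    further m q a X r H T n ≤ further m q a X r H T' n := by
  classical
  unfold further
  apply card_le_card
  intro t ht
  rw [mem_filter, mem_Icc] at ht ⊢
  exact ⟨⟨ht.1.1, ht.1.2.trans h⟩, ht.2⟩

lemma with_mono (m q a X r : ℕ) (H : Finset ℕ) (T T' l : ℕ) (A : Finset ℕ) (Z Y : ℕ) (h : T ≤ T')
    (hA : ∀ j ∈ A, j < l) :
    tuplesWith m q a X r H T' A Z Y ≤ tuplesWith m q a X r H T (range l) Z Y := by
  classical
  unfold tuplesWith
  apply card_le_card
  intro n hn
  rw [mem_filter] at hn ⊢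
  refine ⟨hn.1, hn.2.1, ?_⟩
  rw [mem_range]
  exact lt_of_le_of_lt (further_mono m q a X r H T T' n h) (hA _ hn.2.2)

lemma poisson_small (l : ℕ) (ε : ℝ) (hε : 0 < ε) : ∃ C1 : ℝ, 0 ≤ C1 ∧ ∀ x : ℝ, C1 ≤ x →
    poisson x (range l) ≤ ε := by
  have h1 : Tendsto (fun x : ℝ => poisson x (range l)) atTop (nhds 0) := by
    unfold poisson
    have h2 : Tendsto (fun x : ℝ => ∑ j ∈ range l, Real.exp (-x) * x ^ j / j.factorial) atTop
        (nhds (∑ j ∈ range l, (0 : ℝ))) := by
      apply tendsto_finsetSum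
      intro j _
      have h3 := (Real.tendsto_pow_mul_exp_neg_atTop_nhds_zero j).div_const (j.factorial : ℝ)
      rw [zero_div] at h3
      refine h3.congr fun x => ?_
      rw [mul_comm]
    rwa [Finset.sum_const_zero] at h2
  obtain ⟨C1, hC1⟩ := (h1.eventually_le_const hε).exists_forall_of_atTop
  exact ⟨max C1 0, le_max_right _ _, fun x hx => hC1 x ((le_max_left _ _).trans hx)⟩

lemma poisson_le (x : ℝ) (hx : 0 ≤ x) (l : ℕ) (A : Finset ℕ) (hA : ∀ j ∈ A, j < l) :
    0 ≤ poisson x A ∧ poisson x A ≤ poisson x (range l) := by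
  unfold poisson
  refine ⟨Finset.sum_nonneg fun j _ => by positivity, ?_⟩
  apply Finset.sum_le_sum_of_subset_of_nonneg
  · intro j hj
    exact mem_range.2 (hA j hj)
  · intro j _ _
    positivity

lemma nu_lt_of (m q : ℕ) (H : Finset ℕ) (p x : ℕ) (hx : x < p)
    (h : ∀ h ∈ H, (q * h) % p ≠ x ∧ (q * h + 2 * m) % p ≠ x) : nu m q H p < p := by
  classical
  unfold nu
  have h1 : (H ×ˢ ({0, 2 * m} : Finset ℕ)).image (fun x => (q * x.1 + x.2) % p) ⊂ range p := by
    rw [Finset.ssubset_iff_of_subset]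
    · refine ⟨x, mem_range.2 hx, fun hmem => ?_⟩
      rw [mem_image] at hmem
      obtain ⟨⟨g, d⟩, hg, h2⟩ := hmem
      rw [mem_product, mem_insert, mem_singleton] at hg
      simp only at hg h2
      rcases hg.2 with rfl | rfl
      · rw [add_zero] at h2
        exact (h g hg.1).1 h2
      · exact (h g hg.1).2 h2
    · intro z hz
      rw [mem_image] at hz
      obtain ⟨y, _, rfl⟩ := hz
      exact mem_range.2 (Nat.mod_lt _ (by omega))
  have h2 := card_lt_card h1
  rwa [card_range] at h2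

lemma nu_card (m q : ℕ) (H : Finset ℕ) (p : ℕ) : nu m q H p ≤ H.card * 2 := by
  classical
  unfold nu
  refine card_image_le.trans ?_
  rw [card_product]
  exact Nat.mul_le_mul_left _ card_le_two

lemma adm (m q p : ℕ) (hp : p.Prime) : nu m q {0} p < p := by
  have hp2 := hp.two_le
  by_cases h2 : p = 2
  · subst h2
    apply nu_lt_of m q {0} 2 1 (by norm_num)
    intro h hh
    rw [mem_singleton] at hh
    subst hh
    constructor <;> omega
  · have h1 := nu_card m q {0} p
    rw [card_singleton] at h1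
    omega

lemma adm_pair (m q d p : ℕ) (hp : p.Prime) (hpq : ¬ p ∣ q) (h2 : 2 ∣ q * d)
    (h3 : 3 ∣ q * d * m) : nu m q {0, d} p < p := by
  have hp2 := hp.two_le
  obtain ⟨z, hz⟩ : ∃ z, z = q * d := ⟨_, rfl⟩
  rw [← hz] at h2 h3
  by_cases h2' : p = 2
  · subst h2'
    apply nu_lt_of m q {0, d} 2 1 (by norm_num)
    intro h hh
    rw [mem_insert, mem_singleton] at hh
    rcases hh with rfl | rfl
    · constructor <;> omega
    · rw [← hz]
      constructor <;> omega
  by_cases h3' : p = 3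
  · subst h3'
    rcases (Nat.prime_three.dvd_mul).1 h3 with h4 | h4
    · -- all multiples of three
      by_cases h5 : (2 * m) % 3 = 1
      · apply nu_lt_of m q {0, d} 3 2 (by norm_num)
        intro h hh
        rw [mem_insert, mem_singleton] at hh
        rcases hh with rfl | rfl
        · constructor <;> omega
        · rw [← hz]
          constructor <;> omega
      · apply nu_lt_of m q {0, d} 3 1 (by norm_num)
        intro h hh
        rw [mem_insert, mem_singleton] at hh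
        rcases hh with rfl | rfl
        · constructor <;> omega
        · rw [← hz]
          constructor <;> omega
    · by_cases h5 : z % 3 = 1
      · apply nu_lt_of m q {0, d} 3 2 (by norm_num)
        intro h hh
        rw [mem_insert, mem_singleton] at hh
        rcases hh with rfl | rfl
        · constructor <;> omega
        · rw [← hz]
          constructor <;> omega
      · apply nu_lt_of m q {0, d} 3 1 (by norm_num)
        intro h hh
        rw [mem_insert, mem_singleton] at hh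
        rcases hh with rfl | rfl
        · constructor <;> omega
        · rw [← hz]
          constructor <;> omega
  · have hp5 : 5 ≤ p := by
      by_contra hcon
      have : p = 4 := by omega
      subst this
      exact absurd hp (by norm_num)
    have h1 := nu_card m q {0, d} p
    have h4 : ({0, d} : Finset ℕ).card ≤ 2 := card_le_two
    omega

lemma density_pos (m q X r d : ℕ) (h2 : 2 ∣ q * d) (h3 : 3 ∣ q * d * m) :
    0 < density m q X r {0, d} := by
  unfold density
  apply Finset.prod_pos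
  intro p hp
  rw [mem_filter] at hp
  obtain ⟨_, hp1, hp2⟩ := hp
  have h4 := adm_pair m q d p hp1 hp2 h2 h3
  have h5 : (0 : ℝ) < p := by exact_mod_cast hp1.pos
  rw [sub_pos, div_lt_one h5]
  exact_mod_cast h4

lemma exc (m q a t : ℕ) (hq : 0 < q) (ht : 1 ≤ t) (hmq : ¬ q ∣ 2 * m ∨ ¬ 3 ∣ m)
    (h : ∃ d ∈ ({0, 2 * m} : Finset ℕ), ∃ d' ∈ ({0, 2 * m} : Finset ℕ), q * t + d' = d) :
    ∃ p ∈ pz 3, ∀ r, QC q a {0, 2 * m} p r ∨ QC q a {0, 2 * m} p (r + t) := by
  obtain ⟨d, hd, d', hd', e⟩ := h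
  rw [mem_insert, mem_singleton] at hd hd'
  have hqt : 0 < q * t := Nat.mul_pos hq ht
  have e1 : q * t = 2 * m := by
    rcases hd with rfl | rfl <;> rcases hd' with rfl | rfl <;> omega
  have h3 : ¬ 3 ∣ m := by
    rcases hmq with h4 | h4
    · exact absurd ⟨t, e1.symm⟩ h4
    · exact h4
  have h3q : ¬ 3 ∣ q := by
    intro h4
    have h5 : 3 ∣ 2 * m := by
      rw [← e1]
      exact Dvd.dvd.mul_right h4 t
    omega
  refine ⟨3, mem_pz.2 ⟨le_rfl, Nat.prime_three⟩, fun r => ?_⟩
  have h6 : 3 ∣ q * r + a ∨ 3 ∣ q * r + a + 2 * m ∨ 3 ∣ q * r + a + 2 * m + 2 * m := by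
    obtain ⟨x, hx⟩ : ∃ x, x = q * r + a := ⟨_, rfl⟩
    rw [← hx]
    have hm3 : m % 3 = 1 ∨ m % 3 = 2 := by omega
    have hx3 : x % 3 = 0 ∨ x % 3 = 1 ∨ x % 3 = 2 := by omega
    rcases hm3 with hm3 | hm3 <;> rcases hx3 with hx3 | hx3 | hx3
    · left; omega
    · right; left; omega
    · right; right; omega
    · left; omega
    · right; right; omega
    · right; left; omega
  rcases h6 with h6 | h6 | h6
  · exact Or.inl ⟨h3q, 0, mem_insert_self _ _, by rwa [add_zero]⟩
  · exact Or.inl ⟨h3q, 2 * m, mem_insert_of_mem (mem_singleton_self _), h6⟩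
  · refine Or.inr ⟨h3q, 2 * m, mem_insert_of_mem (mem_singleton_self _), ?_⟩
    have e2 : q * (r + t) + a + 2 * m = q * r + a + 2 * m + 2 * m := by
      rw [Nat.mul_add, e1]
      ring
    rw [e2]
    exact h6

/-- **Consecutive pairs of almost primes with a given difference.** There is an absolute constant `v > 0` such that
for `k, l, C ≥ 0`, `ε, θ > 0` there is `r₀` such that for all `r ≥ r₀`, `E ≥ 0`, `κ > 0` and all large `X`:
for ALL `m` with `1 ≤ m ≤ X ^ E`, all `q` with `1 ≤ q ≤ X ^ E` and `φ(q) ≥ κ q` which do not divide `2 m` (or all `q`,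
if `3` does not divide `m`), all `a` such that `a` and `a + 2 m` are prime to `q`, all `Z, Y` with `Y ≥ X ^ θ` and all
`H ⊆ [0, X ^ E]` with at most `k` elements, with `V = V m q X r` and `D = Y density m q X r H`,

(1) the number of the `n` in `(Z, Z + Y]` for which all `n + h`, `h ∈ H`, give pairs (`q (n + h) + a` and
`q (n + h) + a + 2 m` are almost primes) is `D`, up to `ε D`;

(2) for these `n` the number of the further pairs given by `n + 1, ..., n + T` has the Poisson distribution with mean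
`T V`, up to `ε D` for each finite set `A` of numbers, for all `T ≤ C / V`; for `A ⊆ {0, ..., l - 1}` for all `T`;

(3) if `0 ∈ H` and `T = max H` satisfies `T V ≤ C`, the number of the `n` in `(Z, Z + Y]` for which the pairs given by
`n, n + 1, ..., n + T` are exactly those given by the `n + h`, `h ∈ H`, is `D exp (- T V)`, up to the relative error `ε`;

moreover `V ≥ v / log² X`, and `density m q X r {0, d} > 0` if `2 ∣ q d` and `3 ∣ q d m`. -/
theorem result : ∃ v : ℝ, 0 < v ∧ ∀ (k l : ℕ) (C ε θ : ℝ), 0 ≤ C → 0 < ε → 0 < θ →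
    ∃ r₀ : ℕ, 2 ≤ r₀ ∧ ∀ r : ℕ, r₀ ≤ r → ∀ E κ : ℝ, 0 ≤ E → 0 < κ → ∀ᶠ X : ℕ in atTop,
      ∀ m q a : ℕ, 1 ≤ m → (m : ℝ) ≤ (X : ℝ) ^ E → 0 < q → (q : ℝ) ≤ (X : ℝ) ^ E →
      κ * q ≤ q.totient → (¬ q ∣ 2 * m ∨ ¬ 3 ∣ m) → Nat.Coprime q a → Nat.Coprime q (a + 2 * m) →
      v / Real.log X ^ 2 ≤ V m q X r ∧
      (∀ Z Y : ℕ, (X : ℝ) ^ θ ≤ Y → ∀ H : Finset ℕ, H.card ≤ k →
        (∀ h ∈ H, (h : ℝ) ≤ (X : ℝ) ^ E) →
        (|(tuples m q a X r H Z Y : ℝ) - Y * density m q X r H| ≤ ε * (Y * density m q X r H)) ∧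
        (∀ (T : ℕ) (A : Finset ℕ), (T * V m q X r ≤ C ∨ ∀ j ∈ A, j < l) →
          |(tuplesWith m q a X r H T A Z Y : ℝ) -
            Y * density m q X r H * poisson (T * V m q X r) A| ≤ ε * (Y * density m q X r H)) ∧
        (0 ∈ H → H.sup id * V m q X r ≤ C →
          |(consecutive m q a X r H Z Y : ℝ) -
            Y * density m q X r H * Real.exp (-((H.sup id : ℕ) * V m q X r))| ≤
            ε * (Y * density m q X r H * Real.exp (-((H.sup id : ℕ) * V m q X r))))) ∧
      ∀ d : ℕ, 2 ∣ q * d → 3 ∣ q * d * m → 0 < density m q X r {0, d} := by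
  obtain ⟨v, hv, hVlow⟩ := V_lower_unif 2
  refine ⟨v, hv, ?_⟩
  intro k l C ε θ hC hε hθ
  obtain ⟨ε0, hε0⟩ : ∃ ε0 : ℝ, ε0 = min ε 1 * Real.exp (-C) := ⟨_, rfl⟩
  have hexpC : Real.exp (-C) ≤ 1 := by
    rw [Real.exp_le_one_iff]
    linarith
  have hexpC0 := Real.exp_pos (-C)
  have hm0 : 0 < min ε 1 := by positivity
  have hε00 : 0 < ε0 := by rw [hε0]; positivity
  have hε01 : ε0 ≤ 1 := by
    have := min_le_right ε 1
    rw [hε0]
    nlinarith
  have hε0ε : ε0 ≤ ε := by
    have := min_le_left ε 1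
    rw [hε0]
    nlinarith
  obtain ⟨C1, hC10, hC1⟩ := poisson_small l (ε0 / 4) (by positivity)
  obtain ⟨C2, hC2⟩ : ∃ C2, C2 = max C (C1 + 1) := ⟨_, rfl⟩
  have hC20 : 0 ≤ C2 := by
    rw [hC2]
    exact hC.trans (le_max_left _ _)
  obtain ⟨r0, hr02, hlaw⟩ := const_lawR 2 k 3 (by norm_num) C2 (ε0 / 4) θ hC20 (by positivity)
    (by linarith) hθ
  refine ⟨r0, hr02, fun r hr E κ hE hκ => ?_⟩
  have hr2 : 2 ≤ r := hr02.trans hr
  have hrr : (2 : ℝ) ≤ r := by exact_mod_cast hr2
  have hpow : Tendsto (fun X : ℕ => (X : ℝ) ^ (1 / (r : ℝ))) atTop atTop :=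
    (tendsto_rpow_atTop (by positivity)).comp tendsto_natCast_atTop_atTop
  filter_upwards [hlaw r hr (E + 1) κ (by linarith) hκ, eventually_ge_atTop 3,
    hpow.eventually_ge_atTop 2] with X h1 hX3 hX4
  intro m q a hm1 hmX hq hqX hκq hmq hqa hqa'
  obtain ⟨l', hl'⟩ : ∃ l', l' = Real.log X := ⟨_, rfl⟩
  have hX1 : (1 : ℝ) ≤ X := by exact_mod_cast (by omega : 1 ≤ X)
  have hX0 : (0 : ℝ) < X := by linarith
  have hX3r : (3 : ℝ) ≤ X := by exact_mod_cast hX3
  have hl0 : 0 < l' := by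
    rw [hl']
    exact Real.log_pos (by linarith)
  have hXEle : (X : ℝ) ^ E ≤ (X : ℝ) ^ (E + 1) :=
    Real.rpow_le_rpow_of_exponent_le hX1 (by linarith)
  have hDX : ∀ d ∈ ({0, 2 * m} : Finset ℕ), (d : ℝ) ≤ (X : ℝ) ^ (E + 1) := by
    intro d hd
    rw [mem_insert, mem_singleton] at hd
    rcases hd with rfl | rfl
    · push_cast
      positivity
    · push_cast
      rw [Real.rpow_add hX0, Real.rpow_one]
      have : 0 ≤ (X : ℝ) ^ E := by positivity
      nlinarith
  have hDc : ({0, 2 * m} : Finset ℕ).card ≤ 2 := card_le_two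
  have hadm : ∀ p : ℕ, p.Prime → nuB (QC q a {0, 2 * m}) p < p := by
    intro p hp
    rw [QC_nu0]
    by_cases hpq : p ∣ q
    · rw [QC_nuH0 q a _ {0} p hpq]
      exact hp.pos
    · rw [QC_nuH q a _ {0} p hp hpq]
      exact adm m q p hp
  have hVpos : 0 < V m q X r := by
    rw [V_eq m q a]
    exact Vq_pos _ hadm _
  have hV1 : V m q X r ≤ 1 := by
    rw [V_eq m q a]
    exact Vq_le_one _ _
  have hVlow' : v / l' ^ 2 ≤ V m q X r := by
    have hy2 : 2 ≤ ⌊(X : ℝ) ^ (1 / (r : ℝ))⌋₊ := Nat.le_floor (by exact_mod_cast hX4)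
    rw [V_eq m q a]
    refine le_trans ?_ (hVlow (QC q a {0, 2 * m}) (QC_perB q a _ 2 hDc) hadm _ hy2)
    have hy2r : (2 : ℝ) ≤ (⌊(X : ℝ) ^ (1 / (r : ℝ))⌋₊ : ℝ) := by exact_mod_cast hy2
    have hly : 0 < Real.log (⌊(X : ℝ) ^ (1 / (r : ℝ))⌋₊ : ℝ) := Real.log_pos (by linarith)
    apply div_le_div_of_nonneg_left hv.le (by positivity)
    apply pow_le_pow_left₀ hly.le
    rw [hl']
    apply Real.log_le_log (by linarith)
    calc (⌊(X : ℝ) ^ (1 / (r : ℝ))⌋₊ : ℝ) ≤ (X : ℝ) ^ (1 / (r : ℝ)) :=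
          Nat.floor_le (by positivity)
      _ ≤ (X : ℝ) ^ (1 : ℝ) := by
          apply Real.rpow_le_rpow_of_exponent_le hX1
          rw [div_le_one (by linarith)]
          linarith
      _ = X := Real.rpow_one _
  refine ⟨by rw [← hl']; exact hVlow', ?_, fun d hd2 hd3 => density_pos m q X r d hd2 hd3⟩
  intro Z Y hY H hH hHX
  have hDn : 0 ≤ Y * density m q X r H := by
    have := Vq_nonneg (QH (QC q a {0, 2 * m}) H) ⌊(X : ℝ) ^ (1 / (r : ℝ))⌋₊
    rw [density_eq m q a]
    positivity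
  -- the general statement
  obtain ⟨g1, g2⟩ : |(tuples m q a X r H Z Y : ℝ) - Y * density m q X r H| ≤
      ε0 * (Y * density m q X r H) ∧
      (∀ (T : ℕ) (A : Finset ℕ), (T * V m q X r ≤ C ∨ ∀ j ∈ A, j < l) →
        |(tuplesWith m q a X r H T A Z Y : ℝ) -
          Y * density m q X r H * poisson (T * V m q X r) A| ≤
          ε0 * (Y * density m q X r H)) := by
    obtain ⟨h3, h4⟩ := h1 q a hq (hqX.trans hXEle) hκq {0, 2 * m} (insert_nonempty _ _) hDc hDX
      hadm (fun t ht he => exc m q a t hq ht hmq he) Z Y hY H hH (fun h hh => (hHX h hh).trans hXEle)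
    rw [← tuples_eq m q a X r hqa hqa' H Z Y] at h3
    rw [← density_eq] at h3 h4
    simp only [← V_eq] at h4
    obtain ⟨D, hD⟩ : ∃ D, D = Y * density m q X r H := ⟨_, rfl⟩
    rw [← hD] at h3 h4 hDn ⊢
    have h4' : ∀ T : ℕ, T * V m q X r ≤ C2 → ∀ A : Finset ℕ,
        |(tuplesWith m q a X r H T A Z Y : ℝ) - D * poisson (T * V m q X r) A| ≤ ε0 / 4 * D := by
      intro T hT A
      have h5 := h4 T hT A
      rw [← tuplesWith_eq m q a X r hqa hqa' H T A Z Y] at h5
      exact h5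
    have heD0 : 0 ≤ ε0 * D := by positivity
    refine ⟨h3.trans (by linarith), ?_⟩
    intro T A hTA
    by_cases hTs : (T : ℝ) * V m q X r ≤ C2
    · exact (h4' T hTs A).trans (by linarith)
    · rw [not_le] at hTs
      have hA : ∀ j ∈ A, j < l := by
        rcases hTA with h5 | h5
        · have := le_max_left C (C1 + 1)
          rw [← hC2] at this
          linarith
        · exact h5
      obtain ⟨T1, hT1⟩ : ∃ T1 : ℕ, T1 = ⌈C1 / V m q X r⌉₊ := ⟨_, rfl⟩
      have a1 : C1 ≤ T1 * V m q X r := by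
        rw [← div_le_iff₀ hVpos, hT1]
        exact Nat.le_ceil _
      have a2 : T1 * V m q X r ≤ C1 + 1 := by
        have h5 : (T1 : ℝ) < C1 / V m q X r + 1 := by
          rw [hT1]
          exact Nat.ceil_lt_add_one (by positivity)
        have h6 : (T1 : ℝ) * V m q X r < (C1 / V m q X r + 1) * V m q X r :=
          mul_lt_mul_of_pos_right h5 hVpos
        rw [add_mul, div_mul_cancel₀ _ hVpos.ne', one_mul] at h6
        linarith
      have hC1C2 : C1 + 1 ≤ C2 := by
        rw [hC2]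
        exact le_max_right _ _
      have a3 : T1 ≤ T := by
        by_contra hcon
        rw [not_le] at hcon
        have h5 : (T : ℝ) ≤ T1 := by exact_mod_cast hcon.le
        have h6 := mul_le_mul_of_nonneg_right h5 hVpos.le
        linarith
      have b1 := with_mono m q a X r H T1 T l A Z Y a3 hA
      have b2 := h4' T1 (a2.trans hC1C2) (range l)
      have b3 := hC1 _ a1
      have b4 : (tuplesWith m q a X r H T A Z Y : ℝ) ≤
          tuplesWith m q a X r H T1 (range l) Z Y := by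
        exact_mod_cast b1
      obtain ⟨b5, b6⟩ := abs_le.1 b2
      have b7 : D * poisson (T1 * V m q X r) (range l) ≤ D * (ε0 / 4) :=
        mul_le_mul_of_nonneg_left b3 hDn
      have hTV : 0 ≤ (T : ℝ) * V m q X r := by positivity
      obtain ⟨c1, c2⟩ := poisson_le (T * V m q X r) hTV l A hA
      have c3 := hC1 (T * V m q X r) (by linarith)
      have c4 : D * poisson (T * V m q X r) A ≤ D * (ε0 / 4) :=
        mul_le_mul_of_nonneg_left (c2.trans c3) hDn
      have c5 : 0 ≤ D * poisson (T * V m q X r) A := mul_nonneg hDn c1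
      have c6 : (0 : ℝ) ≤ tuplesWith m q a X r H T A Z Y := Nat.cast_nonneg _
      rw [abs_le]
      constructor <;> linarith
  have hle := mul_le_mul_of_nonneg_right hε0ε hDn
  refine ⟨g1.trans hle, fun T A hTA => (g2 T A hTA).trans hle, ?_⟩
  intro h0 hTC
  obtain ⟨T, hT⟩ : ∃ T : ℕ, T = H.sup id := ⟨_, rfl⟩
  rw [consecutive_eq m q a X r H h0 Z Y, ← hT]
  rw [← hT] at hTC
  have h5 := g2 T {0} (Or.inl hTC)
  rw [poisson_zero] at h5
  refine h5.trans ?_
  have h6 : Real.exp (-C) ≤ Real.exp (-(T * V m q X r)) := Real.exp_le_exp.2 (by linarith)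
  have h7 : ε0 ≤ ε * Real.exp (-(T * V m q X r)) := by
    rw [hε0]
    exact mul_le_mul (min_le_left _ _) h6 hexpC0.le hε.le
  calc ε0 * (Y * density m q X r H) ≤
        ε * Real.exp (-(T * V m q X r)) * (Y * density m q X r H) :=
          mul_le_mul_of_nonneg_right h7 hDn
    _ = _ := by ring

end Pool.Agent.Results.MP_9227d9_nt.ConsecutivePairs
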