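import Pool.Agent.X69.Ric.InsL

/-!
# Vectors of consecutive gaps of the primes `p` with `p + 2 d` prime or almost prime

For every `d ≥ 1` and every set `A` of integers `n` in an interval `(Z, Z + Y]` of length `Y ≥ X ^ θ` such that
`n` and `n + 2 d` have no prime factors below `X ^ δ`, with at least `c Y / (log X) ^ 2` elements, and for every `m`
a positive proportion of all vectors of `m` positive integers up to `K (log X) ^ 2` are vectors of `m` consecutive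
gaps of `A`, each of them for at least `κ Y / (log X) ^ (2 (m + 1))` elements. The primes `p` in `(X, 2 X]` for
which `p + 2 d` has at most `r` prime factors, all larger than `p ^ (1 / r)`, are such a set.
-/

set_option autoImplicit false

namespace Pool.Agent.Results.MP_9227d9_nt.GapVectorsPrimes

open Filter

/-- No prime factor of `n` and `n + 2 d` is less than `y`. -/
def Rough (d : ℕ) (y : ℝ) (n : ℕ) : Prop := ∀ q : ℕ, q.Prime → (q ∣ n ∨ q ∣ n + 2 * d) → y ≤ q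

/-- `h` is the vector of the `m` gaps of `A` that follow `n`: all `h i` are positive and the elements of `A`
between `n` and `n + h 0 + ... + h (m - 1)` are exactly `n`, `n + h 0`, `n + h 0 + h 1`, .... -/
def NextGaps (A : Set ℕ) {m : ℕ} (h : Fin m → ℕ) (n : ℕ) : Prop :=
  (∀ i, 0 < h i) ∧ ∀ x, (x ∈ A ∧ n ≤ x ∧ x ≤ n + ∑ i, h i) ↔
    ∃ j : ℕ, j ≤ m ∧ x = n + ∑ i ∈ Finset.univ.filter (fun i : Fin m => (i : ℕ) < j), h i

/-- The number of the elements of `A` in `(Z, Z + Y]` after which `h` is the vector of the next `m` gaps. -/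
noncomputable def freq (A : Set ℕ) (Z Y : ℕ) {m : ℕ} (h : Fin m → ℕ) : ℕ :=
  {n | n ∈ A ∧ n ∈ Set.Ioc Z (Z + Y) ∧ NextGaps A h n}.ncard

/-- The number of the vectors `h` of `m` positive integers up to `K (log X) ^ 2` that are the vector of the next
`m` gaps for at least `κ Y / (log X) ^ (2 (m + 1))` elements of `A` in `(Z, Z + Y]`. -/
noncomputable def frequent (A : Set ℕ) (X Z Y m : ℕ) (K κ : ℝ) : ℕ :=
  {h : Fin m → ℕ | (∀ i, 0 < h i ∧ (h i : ℝ) ≤ K * Real.log X ^ 2) ∧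
    κ * Y / Real.log X ^ (2 * (m + 1)) ≤ (freq A Z Y h : ℝ)}.ncard

/-- The primes `p` such that `p + 2 d` has at most `r` prime factors, counted with multiplicity, all of them
larger than `p ^ (1 / r)`. -/
def Almost (d r : ℕ) : Set ℕ :=
  {p | p.Prime ∧ ArithmeticFunction.cardFactors (p + 2 * d) ≤ r ∧
    ∀ q : ℕ, q.Prime → q ∣ p + 2 * d → (p : ℝ) ^ (1 / (r : ℝ)) < q}

/-- **Gap vectors.** -/
theorem result (d : ℕ) (hd : 1 ≤ d) (m : ℕ) (hm : 1 ≤ m) :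
    (∀ δ θ c : ℝ, 0 < δ → 0 < θ → 0 < c → ∃ K : ℝ, 0 < K ∧ ∃ κ : ℝ, 0 < κ ∧
      ∀ᶠ X : ℕ in atTop, ∀ Z Y : ℕ, (X : ℝ) ^ θ ≤ Y → ∀ A : Set ℕ,
        (∀ n ∈ A, n ∈ Set.Ioc Z (Z + Y) → Rough d ((X : ℝ) ^ δ) n) →
        c * Y / Real.log X ^ 2 ≤ ((A ∩ Set.Ioc Z (Z + Y)).ncard : ℝ) →
        κ * Real.log X ^ (2 * m) ≤ (frequent A X Z Y m K κ : ℝ)) ∧
    ∃ r₀ : ℕ, 2 ≤ r₀ ∧ ∀ r : ℕ, r₀ ≤ r → ∃ K : ℝ, 0 < K ∧ ∃ κ : ℝ, 0 < κ ∧
      ∀ᶠ X : ℕ in atTop, κ * Real.log X ^ (2 * m) ≤ (frequent (Almost d r) X X X m K κ : ℝ) := by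
  have H := Pool.Agent.X69.Ric.InsL.pair d hd
  refine ⟨fun δ θ c hδ hθ hc => ?_, ?_⟩
  · obtain ⟨K, hK, κ, hκ, h⟩ := H.frq δ θ c hδ hθ hc m hm
    refine ⟨K, hK, κ, hκ, ?_⟩
    filter_upwards [h] with X hX Z Y hXY A hA hlow
    exact hX Z Y hXY A (fun n hn hnI q hq hd => hA n hn hnI q hq (hd.imp_right (fun hi => hi.choose_spec))) hlow
  · obtain ⟨r₀, hr₀, h⟩ := H.frqAl m hm
    refine ⟨r₀, hr₀, fun r hr => ?_⟩
    obtain ⟨K, hK, κ, hκ, h1⟩ := h r hr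
    refine ⟨K, hK, κ, hκ, ?_⟩
    have e : Pool.Agent.X69.Ric.AVp (Pool.Agent.X69.Ric.InsL.vL (fun _ : Fin 1 => 2 * d)) r = Almost d r := by
      ext q
      exact ⟨fun hq => ⟨hq.1, (hq.2 0).1, (hq.2 0).2⟩, fun hq => ⟨hq.1, fun _ => ⟨hq.2.1, hq.2.2⟩⟩⟩
    rw [e] at h1
    exact h1

end Pool.Agent.Results.MP_9227d9_nt.GapVectorsPrimes
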