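import Pool.Agent.TH977.PW.Final

set_option autoImplicit false

/-!
# The gcd recursion with `n (n + 2 m)`: the first zero is far from `4 m ^ 2` for many `m`

As long as all gcds after the first one are `1` one has `a n = 4 m ^ 2 - 2 - n`. A prime `q` that divides the next gcd
divides `4 m ^ 2 - 1 = (2 m - 1) (2 m + 1)` or `4 m ^ 2 + 2 m - 1`, and the index `n = 2 m - 1` is such a time. If
these numbers have no prime factors below `m ^ c` then the first gcd larger than `1` exceeds `m ^ c`. A sieve result of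
the starting library (`Pool.Agent.TH977.PW.final`) provides many such `m` in short intervals.
-/

namespace Pool.Agent.Results.MP_9227d9_nt.LargeDeviations

open Finset Filter Polynomial

/-- `a` is the sequence of the problem for the parameter `m` -/
def IsSeq (m : ℕ) (a : ℕ → ℤ) : Prop :=
  a 1 = 4 * (m : ℤ) ^ 2 ∧ ∀ n : ℕ, 2 ≤ n →
    a n = |a (n - 1) - ((Int.gcd (a (n - 1)) ((n : ℤ) * ((n : ℤ) + 2 * (m : ℤ)))) : ℤ)|

lemma tail (a : ℕ → ℤ) (n₀ t f : ℕ) (hn : n₀ ≤ t) (ht : 0 ≤ a t)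
    (hstep : ∀ n, t ≤ n → 0 < a n → 0 ≤ a (n + 1) ∧ a (n + 1) ≤ a n - 1)
    (hf : IsLeast {n : ℕ | n₀ ≤ n ∧ a n = 0} f) : (f : ℤ) ≤ t + a t := by
  by_contra hcon
  push Not at hcon
  have htf : t < f := by
    have : (t : ℤ) < f := by linarith
    exact_mod_cast this
  have hne : ∀ n, t ≤ n → n < f → a n ≠ 0 := by
    intro n h1 h2 h3
    have := hf.2 ⟨hn.trans h1, h3⟩
    omega
  have hall : ∀ k : ℕ, t + k < f → 0 < a (t + k) ∧ a (t + k) ≤ a t - k := by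
    intro k
    induction k with
    | zero =>
      intro h
      have := hne t le_rfl htf
      simp only [add_zero, Nat.cast_zero, sub_zero]
      omega
    | succ k ih =>
      intro h
      obtain ⟨h1, h2⟩ := ih (by omega)
      obtain ⟨h3, h4⟩ := hstep (t + k) (by omega) h1
      have h5 := hne (t + (k + 1)) (by omega) h
      have e1 : t + (k + 1) = t + k + 1 := by ring
      rw [e1] at h5 ⊢
      push_cast
      omega
  have h1 := hall (a t).toNat (by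
    have : ((t + (a t).toNat : ℕ) : ℤ) < f := by
      push_cast
      rw [Int.toNat_of_nonneg ht]
      exact hcon
    exact_mod_cast this)
  rw [Int.toNat_of_nonneg ht] at h1
  omega

/-- one step with a positive value -/
lemma step {m : ℕ} {a : ℕ → ℤ} (ha : IsSeq m a) (n : ℕ) (hn : 2 ≤ n) (hpos : 0 < a (n - 1)) :
    a n = a (n - 1) - (Int.gcd (a (n - 1)) ((n : ℤ) * ((n : ℤ) + 2 * (m : ℤ))) : ℕ) ∧
      1 ≤ Int.gcd (a (n - 1)) ((n : ℤ) * ((n : ℤ) + 2 * (m : ℤ))) ∧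
      ((Int.gcd (a (n - 1)) ((n : ℤ) * ((n : ℤ) + 2 * (m : ℤ))) : ℕ) : ℤ) ≤ a (n - 1) := by
  have h1 : ((Int.gcd (a (n - 1)) ((n : ℤ) * ((n : ℤ) + 2 * (m : ℤ))) : ℕ) : ℤ) ≤ a (n - 1) :=
    Int.le_of_dvd hpos (Int.gcd_dvd_left _ _)
  have h2 : 0 < Int.gcd (a (n - 1)) ((n : ℤ) * ((n : ℤ) + 2 * (m : ℤ))) :=
    Int.gcd_pos_of_ne_zero_left _ hpos.ne'
  refine ⟨?_, h2, h1⟩
  rw [ha.2 n hn, abs_of_nonneg (by linarith)]

lemma second {m : ℕ} {a : ℕ → ℤ} (hm : 2 ≤ m) (ha : IsSeq m a) : a 2 = 4 * (m : ℤ) ^ 2 - 4 := by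
  have hpos : 0 < a (2 - 1) := by
    show 0 < a 1
    rw [ha.1]
    positivity
  have h1 := (step ha 2 le_rfl hpos).1
  rw [h1]
  show a 1 - _ = _
  have h2 : Int.gcd (a (2 - 1)) (((2 : ℕ) : ℤ) * (((2 : ℕ) : ℤ) + 2 * (m : ℤ))) = 4 := by
    show Int.gcd (a 1) _ = 4
    rw [ha.1]
    have e1 : (4 * (m : ℤ) ^ 2) = 4 * ((m : ℤ) ^ 2) := by ring
    have e2 : (((2 : ℕ) : ℤ) * (((2 : ℕ) : ℤ) + 2 * (m : ℤ))) = 4 * ((m : ℤ) + 1) := by push_cast; ring
    rw [e1, e2, Int.gcd_mul_left]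
    have h3 : Int.gcd ((m : ℤ) ^ 2) ((m : ℤ) + 1) = 1 := by
      rw [← Int.isCoprime_iff_gcd_eq_one]
      refine ⟨1, -((m : ℤ) - 1), ?_⟩
      ring
    rw [h3]
    rfl
  rw [h2, ha.1]
  push_cast
  ring

/-- **the deterministic part** -/
lemma det (m y : ℕ) (hm : 2 ≤ m)
    (hy : ∀ q : ℕ, q.Prime → ((q : ℤ) ∣ 2 * (m : ℤ) - 1 ∨ (q : ℤ) ∣ 2 * (m : ℤ) + 1 ∨
      (q : ℤ) ∣ 4 * (m : ℤ) ^ 2 + 2 * m - 1) → y < q)
    (a : ℕ → ℤ) (ha : IsSeq m a) :
    (∃ t : ℕ, 3 ≤ t ∧ t ≤ 2 * m - 1 ∧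
      (∀ n : ℕ, 3 ≤ n → n < t → Int.gcd (a (n - 1)) ((n : ℤ) * ((n : ℤ) + 2 * (m : ℤ))) = 1) ∧
      y < Int.gcd (a (t - 1)) ((t : ℤ) * ((t : ℤ) + 2 * (m : ℤ)))) ∧
    ∀ z : ℕ, IsLeast {n : ℕ | 1 ≤ n ∧ a n = 0} z → (z : ℤ) + y + 2 ≤ 4 * (m : ℤ) ^ 2 := by
  classical
  have hm' : (2 : ℤ) ≤ m := by exact_mod_cast hm
  -- the first index with a gcd larger than `1`
  have hex : ∃ t : ℕ, 3 ≤ t ∧ Int.gcd (a (t - 1)) ((t : ℤ) * ((t : ℤ) + 2 * (m : ℤ))) ≠ 1 ∧ t ≤ 2 * m - 1 := by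
    by_contra hcon
    push Not at hcon
    have hall : ∀ n : ℕ, 2 ≤ n → n ≤ 2 * m - 2 → a n = 4 * (m : ℤ) ^ 2 - 2 - n := by
      intro n hn
      induction n, hn using Nat.le_induction with
      | base =>
        intro _
        rw [second hm ha]
        push_cast
        ring
      | succ n hn ih =>
        intro h
        have h1 := ih (by omega)
        have hnm : (n : ℤ) + 1 ≤ 2 * m - 2 := by omega
        have hpos : 0 < a (n + 1 - 1) := by
          rw [Nat.add_sub_cancel, h1]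
          nlinarith
        have h2 := (step ha (n + 1) (by omega) hpos).1
        have h3 : Int.gcd (a (n + 1 - 1)) (((n + 1 : ℕ) : ℤ) * (((n + 1 : ℕ) : ℤ) + 2 * (m : ℤ))) = 1 := by
          by_contra h4
          have := hcon (n + 1) (by omega) h4
          omega
        rw [h2, h3, Nat.add_sub_cancel, h1]
        push_cast
        ring
    have h1 := hall (2 * m - 2) (by omega) le_rfl
    have e1 : ((2 * m - 2 : ℕ) : ℤ) = 2 * (m : ℤ) - 2 := by omega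
    have e2 : ((2 * m - 1 : ℕ) : ℤ) = 2 * (m : ℤ) - 1 := by omega
    have h2 : Int.gcd (a (2 * m - 1 - 1)) (((2 * m - 1 : ℕ) : ℤ) * (((2 * m - 1 : ℕ) : ℤ) + 2 * (m : ℤ))) = 1 := by
      by_contra h4
      have := hcon (2 * m - 1) (by omega) h4
      omega
    rw [show 2 * m - 1 - 1 = 2 * m - 2 by omega, h1, e1, e2] at h2
    have h3 : (2 * (m : ℤ) - 1) ∣ 4 * (m : ℤ) ^ 2 - 2 - (2 * (m : ℤ) - 2) := ⟨2 * m, by ring⟩
    have h4 : (2 * (m : ℤ) - 1) ∣ (2 * (m : ℤ) - 1) * (2 * (m : ℤ) - 1 + 2 * (m : ℤ)) := Dvd.intro _ rfl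
    have h5 := Int.dvd_coe_gcd h3 h4
    rw [h2] at h5
    have h6 := Int.le_of_dvd (by norm_num) h5
    push_cast at h6
    linarith
  obtain ⟨t, ht⟩ : ∃ t, t = Nat.find hex := ⟨_, rfl⟩
  obtain ⟨ht3, htg, htm⟩ := Nat.find_spec hex
  rw [← ht] at ht3 htg htm
  have hone : ∀ n : ℕ, 3 ≤ n → n < t → Int.gcd (a (n - 1)) ((n : ℤ) * ((n : ℤ) + 2 * (m : ℤ))) = 1 := by
    intro n h1 h2
    by_contra h3
    rw [ht] at h2
    exact Nat.find_min hex h2 ⟨h1, h3, by omega⟩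
  have hall : ∀ n : ℕ, 2 ≤ n → n < t → a n = 4 * (m : ℤ) ^ 2 - 2 - n := by
    intro n hn
    induction n, hn using Nat.le_induction with
    | base =>
      intro _
      rw [second hm ha]
      push_cast
      ring
    | succ n hn ih =>
      intro h
      have h1 := ih (by omega)
      have hnm : (n : ℤ) + 1 ≤ 2 * m - 2 := by omega
      have hpos : 0 < a (n + 1 - 1) := by
        rw [Nat.add_sub_cancel, h1]
        nlinarith
      have h2 := (step ha (n + 1) (by omega) hpos).1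
      have h3 := hone (n + 1) (by omega) h
      rw [h2, h3, Nat.add_sub_cancel, h1]
      push_cast
      ring
  have htm' : (t : ℤ) ≤ 2 * m - 1 := by omega
  have ht3' : (3 : ℤ) ≤ t := by exact_mod_cast ht3
  have hprev : a (t - 1) = 4 * (m : ℤ) ^ 2 - 1 - t := by
    rw [hall (t - 1) (by omega) (by omega)]
    have : ((t - 1 : ℕ) : ℤ) = (t : ℤ) - 1 := by omega
    rw [this]
    ring
  have hpos : 0 < a (t - 1) := by
    rw [hprev]
    nlinarith
  obtain ⟨hs1, hs2, hs3⟩ := step ha t (by omega) hpos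
  obtain ⟨g, hg⟩ : ∃ g : ℕ, g = Int.gcd (a (t - 1)) ((t : ℤ) * ((t : ℤ) + 2 * (m : ℤ))) := ⟨_, rfl⟩
  rw [← hg] at htg hs1 hs2 hs3
  have hgy : y < g := by
    obtain ⟨q, hq, hqg⟩ := Nat.exists_prime_and_dvd htg
    have hqa : (q : ℤ) ∣ a (t - 1) := by
      have h1 : (g : ℤ) ∣ a (t - 1) := by rw [hg]; exact Int.gcd_dvd_left _ _
      exact (Int.natCast_dvd_natCast.2 hqg).trans h1
    have hqb : (q : ℤ) ∣ (t : ℤ) * ((t : ℤ) + 2 * (m : ℤ)) := by
      have h1 : (g : ℤ) ∣ (t : ℤ) * ((t : ℤ) + 2 * (m : ℤ)) := by rw [hg]; exact Int.gcd_dvd_right _ _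
      exact (Int.natCast_dvd_natCast.2 hqg).trans h1
    have hqp : Prime (q : ℤ) := Nat.prime_iff_prime_int.1 hq
    rw [hprev] at hqa
    have hyq : y < q := by
      apply hy q hq
      rcases hqp.dvd_or_dvd hqb with h | h
      · have h1 : (q : ℤ) ∣ (2 * (m : ℤ) - 1) * (2 * (m : ℤ) + 1) := by
          have h2 := dvd_add hqa h
          have e : 4 * (m : ℤ) ^ 2 - 1 - t + t = (2 * (m : ℤ) - 1) * (2 * (m : ℤ) + 1) := by ring
          rwa [e] at h2
        rcases hqp.dvd_or_dvd h1 with h2 | h2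
        · exact Or.inl h2
        · exact Or.inr (Or.inl h2)
      · have h2 := dvd_add hqa h
        have e : 4 * (m : ℤ) ^ 2 - 1 - t + (t + 2 * m) = 4 * (m : ℤ) ^ 2 + 2 * m - 1 := by ring
        rw [e] at h2
        exact Or.inr (Or.inr h2)
    exact hyq.trans_le (Nat.le_of_dvd hs2 hqg)
  refine ⟨⟨t, ht3, htm, hone, by rw [← hg]; exact hgy⟩, fun z hz => ?_⟩
  have hat : 0 ≤ a t := by rw [hs1]; linarith
  have h1 := tail a 1 t z (by omega) hat (by
    intro n hn hpos'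
    have h2 : 0 < a (n + 1 - 1) := by rwa [Nat.add_sub_cancel]
    obtain ⟨h3, h4, h5⟩ := step ha (n + 1) (by omega) h2
    rw [Nat.add_sub_cancel] at h3 h4 h5
    have h6 : (1 : ℤ) ≤ (Int.gcd (a n) (((n + 1 : ℕ) : ℤ) * (((n + 1 : ℕ) : ℤ) + 2 * (m : ℤ))) : ℕ) := by
      exact_mod_cast h4
    rw [h3]
    constructor <;> linarith) hz
  have hgy' : (y : ℤ) + 1 ≤ g := by exact_mod_cast hgy
  rw [hs1, hprev] at h1
  linarith

lemma quad_prim (a b c : ℤ) (hg : ∀ p : ℕ, p.Prime → ¬ ((p : ℤ) ∣ a ∧ (p : ℤ) ∣ b ∧ (p : ℤ) ∣ c)) :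
    (C a * X ^ 2 + C b * X + C c : ℤ[X]).IsPrimitive := by
  rw [isPrimitive_iff_isUnit_of_C_dvd]
  intro r hr
  have h := (C_dvd_iff_dvd_coeff r (C a * X ^ 2 + C b * X + C c : ℤ[X])).1 hr
  by_contra hu
  have hne : r.natAbs ≠ 1 := fun h1 => hu (Int.isUnit_iff_natAbs_eq.2 h1)
  obtain ⟨p, hp, hpr⟩ := Nat.exists_prime_and_dvd hne
  have hpr' : (p : ℤ) ∣ r := Int.natCast_dvd.2 hpr
  have h0 := h 0
  have h1 := h 1
  have h2 := h 2
  simp only [coeff_add, coeff_C_mul, coeff_X_pow, coeff_X, coeff_C] at h0 h1 h2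
  norm_num at h0 h1 h2
  exact hg p hp ⟨hpr'.trans h2, hpr'.trans h1, hpr'.trans h0⟩

lemma quad_irr (a b c : ℤ) (ha : a ≠ 0)
    (hg : ∀ p : ℕ, p.Prime → ¬ ((p : ℤ) ∣ a ∧ (p : ℤ) ∣ b ∧ (p : ℤ) ∣ c))
    (hD : ¬ IsSquare (b ^ 2 - 4 * a * c)) : Irreducible (C a * X ^ 2 + C b * X + C c : ℤ[X]) := by
  rw [Polynomial.IsPrimitive.Int.irreducible_iff_irreducible_map_cast (quad_prim a b c hg)]
  have hmap : (C a * X ^ 2 + C b * X + C c : ℤ[X]).map (Int.castRingHom ℚ) =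
      C (a : ℚ) * X ^ 2 + C (b : ℚ) * X + C (c : ℚ) := by
    simp
  rw [hmap]
  have ha' : (a : ℚ) ≠ 0 := by exact_mod_cast ha
  have hdeg := natDegree_quadratic (b := (b : ℚ)) (c := (c : ℚ)) ha'
  apply Polynomial.irreducible_of_degree_le_three_of_not_isRoot
  · rw [hdeg]
    decide
  · intro x hx
    rw [IsRoot.def] at hx
    simp only [eval_add, eval_mul, eval_C, eval_pow, eval_X] at hx
    have h3 : (2 * a * x + b) ^ 2 = (b : ℚ) ^ 2 - 4 * a * c := by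
      linear_combination 4 * (a : ℚ) * hx
    apply hD
    have h4 : IsSquare (((b ^ 2 - 4 * a * c : ℤ) : ℚ)) := by
      refine ⟨2 * a * x + b, ?_⟩
      push_cast
      rw [← h3]
      ring
    exact Rat.isSquare_intCast_iff.1 h4

/-- the three polynomials -/
noncomputable def F : Fin 3 → ℤ[X] := ![C 2 * X + C (-1), C 2 * X + C 1, C 4 * X ^ 2 + C 2 * X + C (-1)]

lemma F0 (x : ℤ) : (F 0).eval x = 2 * x - 1 := by simp [F]; ring

lemma F1 (x : ℤ) : (F 1).eval x = 2 * x + 1 := by simp [F]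

lemma F2 (x : ℤ) : (F 2).eval x = 4 * x ^ 2 + 2 * x - 1 := by simp [F]; ring

lemma sysF : Pool.Agent.W123.RU.Poly.Sys F where
  irr := by
    intro i
    fin_cases i
    · exact irreducible_C_mul_X_add_C (by norm_num) (by
        have : IsCoprime (2 : ℤ) (-1) := ⟨1, 1, by norm_num⟩
        exact this.isRelPrime)
    · exact irreducible_C_mul_X_add_C (by norm_num) (by
        have : IsCoprime (2 : ℤ) 1 := ⟨0, 1, by norm_num⟩
        exact this.isRelPrime)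
    · apply quad_irr 4 2 (-1) (by norm_num)
      · rintro p hp ⟨-, -, h⟩
        have h1 : (p : ℤ) ∣ 1 := by
          have := (dvd_neg (a := (p : ℤ)) (b := 1)).1 h
          exact this
        exact hp.one_lt.ne' (Nat.dvd_one.1 (by exact_mod_cast h1))
      · rintro ⟨x, hx⟩
        have h1 : x * x = 20 := by rw [← hx]; norm_num
        have h2 : x ≤ 4 := by nlinarith
        have h3 : -4 ≤ x := by nlinarith
        interval_cases x <;> omega
  deg := by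
    intro i
    fin_cases i
    · show 0 < (C (2 : ℤ) * X + C (-1)).natDegree
      rw [natDegree_linear (by norm_num)]
      norm_num
    · show 0 < (C (2 : ℤ) * X + C 1).natDegree
      rw [natDegree_linear (by norm_num)]
      norm_num
    · show 0 < (C (4 : ℤ) * X ^ 2 + C 2 * X + C (-1)).natDegree
      rw [natDegree_quadratic (by norm_num)]
      norm_num
  lead := by
    intro i
    fin_cases i
    · show 0 < (C (2 : ℤ) * X + C (-1)).leadingCoeff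
      rw [leadingCoeff_linear (by norm_num)]
      norm_num
    · show 0 < (C (2 : ℤ) * X + C 1).leadingCoeff
      rw [leadingCoeff_linear (by norm_num)]
      norm_num
    · show 0 < (C (4 : ℤ) * X ^ 2 + C 2 * X + C (-1)).leadingCoeff
      rw [leadingCoeff_quadratic (by norm_num)]
      norm_num
  inj := by
    intro i j hij
    have h1 : (F i).eval 1 = (F j).eval 1 := by rw [hij]
    have e0 := F0 1
    have e1 := F1 1
    have e2 := F2 1
    fin_cases i <;> fin_cases j <;>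
      first
      | rfl
      | (exfalso; simp only [Fin.mk_one, Fin.reduceFinMk, Fin.zero_eta, e0, e1, e2] at h1; omega)
  adm := by
    intro p hp
    refine ⟨0, fun i h => ?_⟩
    have h1 : (p : ℤ) ∣ 1 := by
      have e0 := F0 ((0 : ℕ) : ℤ)
      have e1 := F1 ((0 : ℕ) : ℤ)
      have e2 := F2 ((0 : ℕ) : ℤ)
      fin_cases i
      · have h' : (p : ℤ) ∣ (F 0).eval ((0 : ℕ) : ℤ) := h
        rw [e0] at h'
        norm_num at h'
        exact h'
      · have h' : (p : ℤ) ∣ (F 1).eval ((0 : ℕ) : ℤ) := h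
        rw [e1] at h'
        norm_num at h'
        exact h'
      · have h' : (p : ℤ) ∣ (F 2).eval ((0 : ℕ) : ℤ) := h
        rw [e2] at h'
        norm_num at h'
        exact h'
    exact hp.one_lt.ne' (Nat.dvd_one.1 (by exact_mod_cast h1))

/-- For the sequence `a` with the parameter `m`: all gcds at the indices `3 ≤ n < t` are `1` and the gcd at `t` is larger
than `m ^ c`, for some `3 ≤ t ≤ 2 m - 1`; and the first zero of `a` is at most `4 m ^ 2 - m ^ c`. -/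
def Far (c : ℝ) (m : ℕ) : Prop :=
  ∀ a : ℕ → ℤ, IsSeq m a →
    (∃ t : ℕ, 3 ≤ t ∧ t ≤ 2 * m - 1 ∧
      (∀ n : ℕ, 3 ≤ n → n < t → Int.gcd (a (n - 1)) ((n : ℤ) * ((n : ℤ) + 2 * (m : ℤ))) = 1) ∧
      (m : ℝ) ^ c < (Int.gcd (a (t - 1)) ((t : ℤ) * ((t : ℤ) + 2 * (m : ℤ))) : ℕ)) ∧
    ∀ z : ℕ, IsLeast {n : ℕ | 1 ≤ n ∧ a n = 0} z → (z : ℝ) ≤ 4 * (m : ℝ) ^ 2 - (m : ℝ) ^ c

open Classical in
/-- For every `0 < θ ≤ 1` there are `c, κ > 0` such that for all large `X` and all `Y` with `X ^ θ ≤ Y ≤ X` at least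
`κ Y / (log X) ^ 3` of the `m` with `X < m ≤ X + Y` have the following property: the first zero `z` of the sequence
`a 1 = 4 m ^ 2`, `a n = |a (n - 1) - gcd (a (n - 1), n (n + 2 m))|` is at most `4 m ^ 2 - m ^ c`, and the first gcd
larger than `1` at an index at least `3` is larger than `m ^ c`. -/
theorem result (θ : ℝ) (hθ : 0 < θ) (hθ1 : θ ≤ 1) : ∃ c κ : ℝ, 0 < c ∧ 0 < κ ∧ ∀ᶠ X : ℕ in atTop, ∀ Y : ℕ,
    (X : ℝ) ^ θ ≤ Y → Y ≤ X →
    κ * Y / Real.log X ^ 3 ≤ (((Finset.Ioc X (X + Y)).filter (fun m : ℕ => Far c m)).card : ℝ) := by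
  obtain ⟨r₀, hr₀, h⟩ := Pool.Agent.TH977.PW.final F sysF
    (fun r => {n | Pool.Agent.TH977.PW.Rough F r n}) (fun r => {n | Pool.Agent.TH977.PW.Rough F r n}) 3 (by simp)
    (fun r n _ h => h) (fun r n _ h1 _ => h1) θ hθ hθ1
  obtain ⟨κ, hκ, h1⟩ := (h r₀ le_rfl).1
  have hr0 : (0 : ℝ) < r₀ := by exact_mod_cast (by omega : 0 < r₀)
  refine ⟨1 / (r₀ : ℝ), κ, by positivity, hκ, ?_⟩
  filter_upwards [h1, eventually_ge_atTop 2] with X hX hX2 Y hXY hYX
  refine (hX Y hXY hYX).trans ?_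
  unfold Pool.Agent.TH977.PW.N
  rw [Nat.cast_le]
  apply card_le_card
  intro m hm
  rw [mem_filter, mem_Ioc] at hm ⊢
  refine ⟨hm.1, fun a ha => ?_⟩
  have hm2 : 2 ≤ m := by have := hm.1.1; omega
  have hrough : Pool.Agent.TH977.PW.Rough F r₀ m := hm.2
  obtain ⟨y, hy⟩ : ∃ y : ℕ, y = ⌊(m : ℝ) ^ (1 / (r₀ : ℝ))⌋₊ := ⟨_, rfl⟩
  have hy0 : (0 : ℝ) ≤ (m : ℝ) ^ (1 / (r₀ : ℝ)) := by positivity
  have hd := det m y hm2 (by
    intro q hq hdvd
    rw [hy, Nat.floor_lt hy0]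
    rcases hdvd with h2 | h2 | h2
    · exact hrough 0 q hq (by rw [F0]; exact h2)
    · exact hrough 1 q hq (by rw [F1]; exact h2)
    · exact hrough 2 q hq (by rw [F2]; exact h2)) a ha
  obtain ⟨⟨t, ht1, ht2, ht3, ht4⟩, hz⟩ := hd
  refine ⟨⟨t, ht1, ht2, ht3, ?_⟩, fun z hz' => ?_⟩
  · rwa [hy, Nat.floor_lt hy0] at ht4
  · have h2 := hz z hz'
    have h3 : ((z : ℝ)) + y + 2 ≤ 4 * (m : ℝ) ^ 2 := by exact_mod_cast h2
    have h4 : (m : ℝ) ^ (1 / (r₀ : ℝ)) < (y : ℝ) + 1 := by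
      rw [hy]
      exact Nat.lt_floor_add_one _
    linarith

end Pool.Agent.Results.MP_9227d9_nt.LargeDeviations
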