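import Mathlib
import Pool.Agent.X262.LOS.RelP3
import Pool.Agent.Results.MP_485179_nt.RegularPrimeTuples

set_option autoImplicit false

/-!
# The almost primes around a prime, uniformly in the shifts; the next almost prime after a prime
-/

namespace Pool.Agent.Results.MP_9227d9_nt.NextAlmostPrime

open Finset Filter

/-- all prime factors of `m` are larger than `X ^ (1 / r)` -/
def AlmostPrime (X r m : ℕ) : Prop := ∀ p : ℕ, p.Prime → p ∣ m → (X : ℝ) ^ (1 / (r : ℝ)) < p

/-- the number of the residue classes modulo `p` which meet `H` -/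
def nu (H : Finset ℕ) (p : ℕ) : ℕ := (H.image (· % p)).card

/-- `H` misses a residue class modulo every prime -/
def Admissible (H : Finset ℕ) : Prop := ∀ p : ℕ, p.Prime → nu H p < p

/-- the expected density of the `m` for which all `m + h`, `h ∈ H`, are almost prime -/
noncomputable def density (X r : ℕ) (H : Finset ℕ) : ℝ :=
  ∏ p ∈ (Icc 1 ⌊(X : ℝ) ^ (1 / (r : ℝ))⌋₊).filter Nat.Prime, (1 - (nu H p : ℝ) / p)

/-- the density of the almost primes -/
noncomputable def V (X r : ℕ) : ℝ :=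
  ∏ p ∈ (Icc 1 ⌊(X : ℝ) ^ (1 / (r : ℝ))⌋₊).filter Nat.Prime, (1 - 1 / (p : ℝ))

/-- the singular series -/
noncomputable def S (H : Finset ℕ) : ℝ :=
  ∏' p : Nat.Primes, (1 - (nu H p : ℝ) / (p : ℕ)) / (1 - 1 / ((p : ℕ) : ℝ)) ^ H.card

open Classical in
/-- the number of the primes `p` in `(Z, Z + Y]` for which all `p + h`, `h ∈ H`, are almost prime -/
noncomputable def primes (X r : ℕ) (H : Finset ℕ) (Z Y : ℕ) : ℕ :=
  ((Ioc Z (Z + Y)).filter (fun p => p.Prime ∧ ∀ h ∈ H, AlmostPrime X r (p + h))).card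

open Classical in
/-- the number of the `t` in `[1, T]`, not in `H`, for which `m + t` is almost prime -/
noncomputable def further (X r : ℕ) (H : Finset ℕ) (T m : ℕ) : ℕ :=
  ((Icc 1 T).filter (fun t => t ∉ H ∧ AlmostPrime X r (m + t))).card

open Classical in
/-- the number of the primes `p` in `(Z, Z + Y]` for which all `p + h`, `h ∈ H`, are almost prime and
the number of the further almost primes in `(p, p + T]` is in `A` -/
noncomputable def primesWith (X r : ℕ) (H : Finset ℕ) (T : ℕ) (A : Finset ℕ) (Z Y : ℕ) : ℕ :=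
  ((Ioc Z (Z + Y)).filter (fun p => p.Prime ∧ (∀ h ∈ H, AlmostPrime X r (p + h)) ∧
    further X r H T p ∈ A)).card

open Classical in
/-- the number of the primes `p` in `(Z, Z + Y]` for which the almost primes in `[p, p + T]` are
exactly the numbers `p + h`, `h ∈ H` -/
noncomputable def pattern (X r : ℕ) (H : Finset ℕ) (T Z Y : ℕ) : ℕ :=
  ((Ioc Z (Z + Y)).filter (fun p => p.Prime ∧ ∀ t, t ≤ T → (AlmostPrime X r (p + t) ↔ t ∈ H))).card

open Classical in
/-- the number of the primes `p` in `(Z, Z + Y]` which are almost prime and for which `p + d` is the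
next almost prime -/
noncomputable def next (X r d Z Y : ℕ) : ℕ :=
  ((Ioc Z (Z + Y)).filter (fun p => p.Prime ∧ AlmostPrime X r p ∧ AlmostPrime X r (p + d) ∧
    ∀ t, 0 < t → t < d → ¬ AlmostPrime X r (p + t))).card

/-- the probability that a Poisson variable with mean `x` is in `A` -/
noncomputable def poisson (x : ℝ) (A : Finset ℕ) : ℝ :=
  ∑ j ∈ A, Real.exp (-x) * x ^ j / j.factorial

open Pool.Agent.X262.LOS Pool.Agent.H373R2.T7 Pool.Agent.W123.RP Pool.Agent.W123.RU
open Pool.Agent.TH464.PO Pool.Agent.Y879.AP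
open Pool.Agent.Y879.PR (Om)
open Pool.Agent.Results.MP_485179_nt

lemma QA_one : QA 1 0 = Q1 := by
  funext p n
  unfold QA Q1
  rw [one_mul, add_zero]

lemma Va_one (y : ℕ) : Va 1 y = Vz y := by
  rw [← Vq_QA 1 0 y, QA_one, Vq_Q1]

lemma QH_iff (H : Finset ℕ) (p m : ℕ) (hp : p.Prime) : QH Q1 H p m ↔ ∃ h ∈ H, p ∣ m + h := by
  have hn1 : ¬ p ∣ 1 := fun h => hp.one_lt.ne' (Nat.dvd_one.1 h)
  unfold QH Q1
  constructor
  · rintro ⟨h, hh, _, hd⟩
    exact ⟨h, hh, hd⟩
  · rintro ⟨h, hh, hd⟩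
    exact ⟨h, hh, hn1, hd⟩

lemma nu_eq (H : Finset ℕ) (p : ℕ) (hp : p.Prime) : nuB (QH Q1 H) p = nu H p := by
  classical
  have h1 := RegularPrimeTuples.nu_eq (H := H) (k := H.card) rfl p hp
  have h2 : nu H p = RegularPrimeTuples.nu H p := rfl
  rw [h2, ← h1]
  unfold nuB
  apply card_iff
  intro m _
  rw [QH_iff H p m hp]
  exact (RegularPrimeTuples.Q_iff (H := H) (k := H.card) rfl p m).symm

lemma density_eq (X r : ℕ) (H : Finset ℕ) :
    density X r H = Vq (QH Q1 H) ⌊(X : ℝ) ^ (1 / (r : ℝ))⌋₊ := by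
  unfold density Vq pz
  refine Finset.prod_congr rfl fun p hp => ?_
  rw [nu_eq H p (mem_filter.1 hp).2]

lemma V_eq (X r : ℕ) : V X r = Vz ⌊(X : ℝ) ^ (1 / (r : ℝ))⌋₊ := rfl

lemma almost_iff (X r n : ℕ) : Sf Q1 ⌊(X : ℝ) ^ (1 / (r : ℝ))⌋₊ n ↔ AlmostPrime X r n := by
  unfold Sf AlmostPrime Q1
  constructor
  · intro h p hp hd
    by_contra hcon
    rw [not_lt] at hcon
    exact h p (mem_pz.2 ⟨Nat.le_floor hcon, hp⟩) ⟨fun h1 => hp.one_lt.ne' (Nat.dvd_one.1 h1), hd⟩
  · rintro h p hp ⟨_, hd⟩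
    rw [mem_pz] at hp
    have h1 := h p hp.2 hd
    have h2 := (Nat.le_floor_iff (by positivity)).1 hp.1
    linarith

lemma base_iff (X r : ℕ) (H : Finset ℕ) (m : ℕ) :
    Sf (QH Q1 H) ⌊(X : ℝ) ^ (1 / (r : ℝ))⌋₊ m ↔ ∀ h ∈ H, AlmostPrime X r (m + h) := by
  rw [sf_QH]
  simp only [almost_iff]

lemma primes_eq (X r : ℕ) (H : Finset ℕ) (Z Y : ℕ) :
    primes X r H Z Y = NbP 1 0 Q1 ⌊(X : ℝ) ^ (1 / (r : ℝ))⌋₊ H Z Y := by
  unfold primes NbP Om
  apply card_iff
  intro m _
  rw [base_iff, one_mul, add_zero]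

lemma further_eq (X r : ℕ) (H : Finset ℕ) (T m : ℕ) :
    further X r H T m = Nn Q1 ⌊(X : ℝ) ^ (1 / (r : ℝ))⌋₊ (Icc 1 T \ H) m := by
  classical
  unfold further Nn
  congr 1
  ext t
  rw [mem_filter, mem_filter, Finset.mem_sdiff, almost_iff, and_assoc]

lemma primesWith_eq (X r : ℕ) (H : Finset ℕ) (T : ℕ) (A : Finset ℕ) (Z Y : ℕ) :
    primesWith X r H T A Z Y = NP 1 0 Q1 ⌊(X : ℝ) ^ (1 / (r : ℝ))⌋₊ H T A Z Y := by
  unfold primesWith NP Om
  rw [filter_filter]
  apply card_iff
  intro m _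
  rw [base_iff, further_eq, one_mul, add_zero, and_assoc]

lemma poisson_eq (x : ℝ) (A : Finset ℕ) : poisson x A = Po x A := rfl

lemma poisson_zero (x : ℝ) : poisson x {0} = Real.exp (-x) := by
  unfold poisson
  rw [Finset.sum_singleton, pow_zero, mul_one, Nat.factorial_zero, Nat.cast_one, div_one]

lemma pattern_eq (X r : ℕ) (H : Finset ℕ) (T Z Y : ℕ) (h0 : 0 ∈ H) (hT : ∀ h ∈ H, h ≤ T) :
    pattern X r H T Z Y = primesWith X r H T {0} Z Y := by
  classical
  unfold pattern primesWith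
  apply card_iff
  intro m _
  apply and_congr_right
  intro _
  rw [mem_singleton]
  unfold further
  rw [card_eq_zero, Finset.filter_eq_empty_iff]
  constructor
  · intro h
    refine ⟨fun a ha => (h a (hT a ha)).2 ha, ?_⟩
    rintro t ht ⟨h1, h2⟩
    exact h1 ((h t (mem_Icc.1 ht).2).1 h2)
  · rintro ⟨h1, h2⟩ t ht
    refine ⟨fun h3 => ?_, fun h3 => h1 t h3⟩
    by_contra hcon
    rcases Nat.eq_zero_or_pos t with h4 | h4
    · exact hcon (h4 ▸ h0)
    · exact h2 (mem_Icc.2 ⟨h4, ht⟩) ⟨hcon, h3⟩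

lemma next_eq (X r d Z Y : ℕ) (_hd : 0 < d) : next X r d Z Y = pattern X r {0, d} d Z Y := by
  classical
  unfold next pattern
  apply card_iff
  intro m _
  apply and_congr_right
  intro _
  constructor
  · rintro ⟨h1, h2, h3⟩ t ht
    rw [mem_insert, mem_singleton]
    constructor
    · intro h4
      by_contra hcon
      rw [not_or] at hcon
      exact h3 t (by omega) (by omega) h4
    · rintro (h4 | h4)
      · rw [h4]
        exact h1
      · rw [h4]
        exact h2
  · intro h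
    refine ⟨?_, ?_, ?_⟩
    · have := (h 0 (Nat.zero_le _)).2 (mem_insert_self _ _)
      rwa [add_zero] at this
    · exact (h d le_rfl).2 (mem_insert_of_mem (mem_singleton_self _))
    · intro t h1 h2 h3
      have := (h t h2.le).1 h3
      rw [mem_insert, mem_singleton] at this
      omega

lemma further_mono (X r : ℕ) (H : Finset ℕ) (T T' m : ℕ) (h : T ≤ T') :
    further X r H T m ≤ further X r H T' m := by
  classical
  unfold further
  apply card_le_card
  intro t ht
  rw [mem_filter, mem_Icc] at ht ⊢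
  exact ⟨⟨ht.1.1, ht.1.2.trans h⟩, ht.2⟩

lemma with_mono (X r : ℕ) (H : Finset ℕ) (T T' l : ℕ) (A : Finset ℕ) (Z Y : ℕ) (h : T ≤ T')
    (hA : ∀ j ∈ A, j < l) : primesWith X r H T' A Z Y ≤ primesWith X r H T (range l) Z Y := by
  classical
  unfold primesWith
  apply card_le_card
  intro m hm
  rw [mem_filter] at hm ⊢
  refine ⟨hm.1, hm.2.1, hm.2.2.1, ?_⟩
  rw [mem_range]
  exact lt_of_le_of_lt (further_mono X r H T T' m h) (hA _ hm.2.2.2)

lemma poisson_small (l : ℕ) (ε : ℝ) (hε : 0 < ε) : ∃ C1 : ℝ, 0 ≤ C1 ∧ ∀ x : ℝ, C1 ≤ x →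
    poisson x (range l) ≤ ε := by
  have h1 : Tendsto (fun x : ℝ => poisson x (range l)) atTop (nhds 0) := by
    unfold poisson
    have h2 : Tendsto (fun x : ℝ => ∑ j ∈ range l, Real.exp (-x) * x ^ j / j.factorial) atTop
        (nhds (∑ j ∈ range l, (0 : ℝ))) := by
      apply tendsto_finsetSum
      intro j _
      have h3 := (Real.tendsto_pow_mul_exp_neg_atTop_nhds_zero j).div_const (j.factorial : ℝ)
      rw [zero_div] at h3
      refine h3.congr fun x => ?_
      rw [mul_comm]
    rwa [Finset.sum_const_zero] at h2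
  obtain ⟨C1, hC1⟩ := (h1.eventually_le_const hε).exists_forall_of_atTop
  exact ⟨max C1 0, le_max_right _ _, fun x hx => hC1 x ((le_max_left _ _).trans hx)⟩

lemma poisson_le (x : ℝ) (hx : 0 ≤ x) (l : ℕ) (A : Finset ℕ) (hA : ∀ j ∈ A, j < l) :
    0 ≤ poisson x A ∧ poisson x A ≤ poisson x (range l) := by
  unfold poisson
  refine ⟨Finset.sum_nonneg fun j _ => by positivity, ?_⟩
  apply Finset.sum_le_sum_of_subset_of_nonneg
  · intro j hj
    exact mem_range.2 (hA j hj)
  · intro j _ _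
    positivity

lemma pair_adm (m : ℕ) (p : ℕ) (hp : p.Prime) : nu {0, 2 * m} p < p := by
  unfold nu
  rw [image_insert, image_singleton]
  rcases hp.eq_two_or_odd with h | h
  · subst h
    rw [Nat.zero_mod, Nat.mul_mod_right]
    simp
  · have h1 := card_le_two (a := 0 % p) (b := 2 * m % p)
    have h2 := hp.two_le
    have h3 : p ≠ 2 := by
      rintro rfl
      omega
    omega

/-- **The almost primes around a prime.** Let `k, l ≥ 0`, `E, C ≥ 0`, `ε > 0` and `0 < δ ≤ 1`. There is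
`r₀` such that for all `r ≥ r₀` and all large `X`, for all `Z, Y ≥ δ X` with `Z + Y ≤ X`, with
`V = V X r`:

for all sets `H ⊆ [0, X ^ E]` with `0 ∈ H` and at most `k` elements, with
`D = Y density X r H / (V log X)`,

(1) the number of the primes `p` in `(Z, Z + Y]` for which all `p + h`, `h ∈ H`, are almost prime is
`D`, up to `ε D`;

(2) for these `p` the number of further almost primes in `(p, p + T]` has the Poisson distribution
with mean `T V`, up to `ε D` for each set `A` of numbers, for all `T ≤ C / V`; for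
`A ⊆ {0, ..., l - 1}` for all `T`;

(3) if `T` is the largest element of `H`, the number of the primes `p` in `(Z, Z + Y]` for which the
almost primes in `[p, p + T]` are exactly the `p + h`, `h ∈ H`, is `D exp (- T V)`, up to `ε D`;

(4) if `H` is admissible with `k` elements in `[0, log ^ k X]`, then the density is asymptotically
`(r exp (-γ)) ^ k 𝔖(H) / log ^ k X`;

and (5) for all `m ≥ 1` with `2 m V ≤ C`, the number of the primes `p` in `(Z, Z + Y]` for which
`p + 2 m` is the next almost prime is `Y density X r {0, 2 m} / (V log X) exp (- 2 m V)`, up to the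
relative error `ε`, and this is positive. -/
theorem result (k l : ℕ) (E C ε δ : ℝ) (hE : 0 ≤ E) (hC : 0 ≤ C) (hε : 0 < ε) (hδ : 0 < δ)
    (hδ1 : δ ≤ 1) :
    ∃ r₀ : ℕ, 2 ≤ r₀ ∧ ∀ r : ℕ, r₀ ≤ r → ∀ᶠ X : ℕ in atTop, ∀ Z Y : ℕ, δ * X ≤ Z → δ * X ≤ Y →
      Z + Y ≤ X →
      (∀ H : Finset ℕ, 0 ∈ H → H.card ≤ k → (∀ h ∈ H, (h : ℝ) ≤ (X : ℝ) ^ E) →
        (|(primes X r H Z Y : ℝ) - Y * density X r H / (V X r * Real.log X)| ≤
          ε * (Y * density X r H / (V X r * Real.log X))) ∧
        (∀ (T : ℕ) (A : Finset ℕ), (T * V X r ≤ C ∨ ∀ j ∈ A, j < l) →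
          |(primesWith X r H T A Z Y : ℝ) -
            Y * density X r H / (V X r * Real.log X) * poisson (T * V X r) A| ≤
            ε * (Y * density X r H / (V X r * Real.log X))) ∧
        (∀ T ∈ H, (∀ h ∈ H, h ≤ T) →
          |(pattern X r H T Z Y : ℝ) -
            Y * density X r H / (V X r * Real.log X) * Real.exp (-(T * V X r))| ≤
            ε * (Y * density X r H / (V X r * Real.log X))) ∧
        (Admissible H → H.card = k → (∀ h ∈ H, (h : ℝ) ≤ Real.log X ^ k) →
          |density X r H * Real.log X ^ k -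
            (r * Real.exp (-Real.eulerMascheroniConstant)) ^ k * S H| ≤ ε * S H)) ∧
      (∀ m : ℕ, 1 ≤ m → 2 * m * V X r ≤ C →
        0 < Y * density X r {0, 2 * m} / (V X r * Real.log X) * Real.exp (-(2 * m * V X r)) ∧
        |(next X r (2 * m) Z Y : ℝ) -
          Y * density X r {0, 2 * m} / (V X r * Real.log X) * Real.exp (-(2 * m * V X r))| ≤
          ε * (Y * density X r {0, 2 * m} / (V X r * Real.log X) *
            Real.exp (-(2 * m * V X r)))) := by
  obtain ⟨ε0, hε0⟩ : ∃ ε0 : ℝ, ε0 = min ε 1 * Real.exp (-C) := ⟨_, rfl⟩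
  have hexpC : Real.exp (-C) ≤ 1 := by
    rw [Real.exp_le_one_iff]
    linarith
  have hexpC0 := Real.exp_pos (-C)
  have hm0 : 0 < min ε 1 := by positivity
  have hε00 : 0 < ε0 := by rw [hε0]; positivity
  have hε01 : ε0 ≤ 1 := by
    have := min_le_right ε 1
    rw [hε0]
    nlinarith
  have hε0ε : ε0 ≤ ε := by
    have := min_le_left ε 1
    rw [hε0]
    nlinarith
  obtain ⟨C1, hC10, hC1⟩ := poisson_small (l + 1) (ε0 / 4) (by positivity)
  obtain ⟨r0, hr02, hlaw⟩ := prog_law 1 (max k 2) squarefree_one (E + 1) (max C (C1 + 1)) (ε0 / 4) δ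
    (by linarith) (hC.trans (le_max_left _ _)) (by positivity) (by linarith) hδ hδ1
  refine ⟨r0, hr02, fun r hr => ?_⟩
  have hr2 : 2 ≤ r := hr02.trans hr
  obtain ⟨c'', C'', hc'', -, hVb⟩ := Vz_bounds
  have hrr : (2 : ℝ) ≤ r := by exact_mod_cast hr2
  have hpow : Tendsto (fun X : ℕ => (X : ℝ) ^ (1 / (r : ℝ))) atTop atTop :=
    (tendsto_rpow_atTop (by positivity)).comp tendsto_natCast_atTop_atTop
  have hlogs : ∀ᶠ X : ℕ in atTop, C / c'' * Real.log X ≤ X := by
    have h := (Real.isLittleO_log_id_atTop.comp_tendsto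
      (tendsto_natCast_atTop_atTop (R := ℝ))).def (show (0 : ℝ) < 1 / (C / c'' + 1) by positivity)
    filter_upwards [h, eventually_ge_atTop 1] with X h1 h2
    simp only [Function.comp_apply, id] at h1
    have h3 : 0 ≤ Real.log (X : ℝ) := Real.log_natCast_nonneg X
    rw [Real.norm_of_nonneg h3, Real.norm_of_nonneg (Nat.cast_nonneg _)] at h1
    have h4 : 0 ≤ C / c'' := by positivity
    calc C / c'' * Real.log X ≤ (C / c'' + 1) * Real.log X := by nlinarith
      _ ≤ (C / c'' + 1) * (1 / (C / c'' + 1) * X) := mul_le_mul_of_nonneg_left h1 (by positivity)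
      _ = X := by field_simp
  filter_upwards [hlaw r hr, RegularPrimeTuples.density_asym k r hr2 ε hε, eventually_ge_atTop 3,
    hpow.eventually_ge_atTop 2, hlogs] with X h1 h2 hX3 hX4 hX5
  intro Z Y hZ hY hZY
  obtain ⟨l', hl'⟩ : ∃ l', l' = Real.log X := ⟨_, rfl⟩
  have hX1 : (1 : ℝ) ≤ X := by exact_mod_cast (by omega : 1 ≤ X)
  have hX3r : (3 : ℝ) ≤ X := by exact_mod_cast hX3
  have hl0 : 0 < l' := by
    rw [hl']
    exact Real.log_pos (by linarith)
  have hVpos : 0 < V X r := by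
    have := Vq_pos Q1 Q1_adm ⌊(X : ℝ) ^ (1 / (r : ℝ))⌋₊
    rwa [Vq_Q1] at this
  have hY0 : 0 < (Y : ℝ) := lt_of_lt_of_le (by positivity) hY
  -- the general statement
  have gen : ∀ H : Finset ℕ, 0 ∈ H → H.card ≤ max k 2 → (∀ h ∈ H, (h : ℝ) ≤ (X : ℝ) ^ (E + 1)) →
      |(primes X r H Z Y : ℝ) - Y * density X r H / (V X r * l')| ≤
          ε0 * (Y * density X r H / (V X r * l')) ∧
      (∀ (T : ℕ) (A : Finset ℕ), (T * V X r ≤ C ∨ ∀ j ∈ A, j < l + 1) →
        |(primesWith X r H T A Z Y : ℝ) -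
          Y * density X r H / (V X r * l') * poisson (T * V X r) A| ≤
          ε0 * (Y * density X r H / (V X r * l'))) := by
    intro H h0 hH hHX
    obtain ⟨h3, h4⟩ := h1 0 (Nat.zero_le _) (Nat.coprime_one_left 0) Z Y hZ hY hZY H h0 hH hHX
    simp only [QA_one, ← primes_eq, ← primesWith_eq, ← density_eq, ← V_eq, ← poisson_eq, Va_one,
      ← hl'] at h3 h4
    obtain ⟨D, hD⟩ : ∃ D, D = Y * density X r H / (V X r * l') := ⟨_, rfl⟩
    have hD0 : 0 ≤ D := by
      have := Vq_nonneg (QH Q1 H) ⌊(X : ℝ) ^ (1 / (r : ℝ))⌋₊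
      rw [hD, density_eq]
      positivity
    have hDl : Y * (density X r H / V X r) = D * l' := by
      rw [hD]
      field_simp
    rw [hDl] at h3 h4
    rw [← hD]
    have h3' : |(primes X r H Z Y : ℝ) - D| ≤ ε0 / 4 * D := by
      rw [← sub_mul, abs_mul, abs_of_pos hl0, ← mul_assoc] at h3
      exact le_of_mul_le_mul_right h3 hl0
    have h4' : ∀ T : ℕ, T * V X r ≤ max C (C1 + 1) → ∀ A : Finset ℕ,
        |(primesWith X r H T A Z Y : ℝ) - D * poisson (T * V X r) A| ≤ ε0 / 4 * D := by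
      intro T hT A
      have h5 := h4 T hT A
      have e1 : (primesWith X r H T A Z Y : ℝ) * l' - D * l' * poisson (T * V X r) A =
          ((primesWith X r H T A Z Y : ℝ) - D * poisson (T * V X r) A) * l' := by ring
      rw [e1, abs_mul, abs_of_pos hl0, ← mul_assoc] at h5
      exact le_of_mul_le_mul_right h5 hl0
    have heD0 : 0 ≤ ε0 * D := by positivity
    refine ⟨h3'.trans (by linarith), ?_⟩
    intro T A hTA
    by_cases hTs : (T : ℝ) * V X r ≤ max C (C1 + 1)
    · exact (h4' T hTs A).trans (by linarith)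
    · rw [not_le] at hTs
      have hA : ∀ j ∈ A, j < l + 1 := by
        rcases hTA with h5 | h5
        · have := le_max_left C (C1 + 1)
          linarith
        · exact h5
      obtain ⟨T1, hT1⟩ : ∃ T1 : ℕ, T1 = ⌈C1 / V X r⌉₊ := ⟨_, rfl⟩
      have hV1 : V X r ≤ 1 := by
        have := Vq_le_one Q1 ⌊(X : ℝ) ^ (1 / (r : ℝ))⌋₊
        rwa [Vq_Q1] at this
      have a1 : C1 ≤ T1 * V X r := by
        rw [← div_le_iff₀ hVpos, hT1]
        exact Nat.le_ceil _
      have a2 : T1 * V X r ≤ C1 + 1 := by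
        have h5 : (T1 : ℝ) < C1 / V X r + 1 := by
          rw [hT1]
          exact Nat.ceil_lt_add_one (by positivity)
        have h6 : (T1 : ℝ) * V X r < (C1 / V X r + 1) * V X r := mul_lt_mul_of_pos_right h5 hVpos
        rw [add_mul, div_mul_cancel₀ _ hVpos.ne', one_mul] at h6
        linarith
      have a3 : T1 ≤ T := by
        by_contra hcon
        rw [not_le] at hcon
        have h5 : (T : ℝ) ≤ T1 := by exact_mod_cast hcon.le
        have h6 := mul_le_mul_of_nonneg_right h5 hVpos.le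
        have := le_max_right C (C1 + 1)
        linarith
      have b1 := with_mono X r H T1 T (l + 1) A Z Y a3 hA
      have b2 := h4' T1 (a2.trans (le_max_right _ _)) (range (l + 1))
      have b3 := hC1 _ a1
      have b4 : (primesWith X r H T A Z Y : ℝ) ≤ primesWith X r H T1 (range (l + 1)) Z Y := by
        exact_mod_cast b1
      obtain ⟨b5, b6⟩ := abs_le.1 b2
      have b7 : D * poisson (T1 * V X r) (range (l + 1)) ≤ D * (ε0 / 4) :=
        mul_le_mul_of_nonneg_left b3 hD0
      have hTV : 0 ≤ (T : ℝ) * V X r := by positivity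
      obtain ⟨c1, c2⟩ := poisson_le (T * V X r) hTV (l + 1) A hA
      have c3 := hC1 (T * V X r) (by
        have := le_max_right C (C1 + 1)
        linarith)
      have c4 : D * poisson (T * V X r) A ≤ D * (ε0 / 4) :=
        mul_le_mul_of_nonneg_left (c2.trans c3) hD0
      have c5 : 0 ≤ D * poisson (T * V X r) A := mul_nonneg hD0 c1
      have c6 : (0 : ℝ) ≤ primesWith X r H T A Z Y := Nat.cast_nonneg _
      rw [abs_le]
      constructor <;> linarith
  rw [← hl'] at h2 ⊢
  have hDn : ∀ H : Finset ℕ, 0 ≤ Y * density X r H / (V X r * l') := by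
    intro H
    have := Vq_nonneg (QH Q1 H) ⌊(X : ℝ) ^ (1 / (r : ℝ))⌋₊
    rw [density_eq]
    positivity
  refine ⟨?_, ?_⟩
  · intro H h0 hH hHX
    have hXE : (X : ℝ) ^ E ≤ (X : ℝ) ^ (E + 1) :=
      Real.rpow_le_rpow_of_exponent_le hX1 (by linarith)
    obtain ⟨g1, g2⟩ := gen H h0 (hH.trans (le_max_left _ _)) (fun h hh => (hHX h hh).trans hXE)
    have hle := mul_le_mul_of_nonneg_right hε0ε (hDn H)
    refine ⟨g1.trans hle, ?_, ?_, ?_⟩
    · intro T A hTA
      refine (g2 T A ?_).trans hle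
      rcases hTA with h5 | h5
      · exact Or.inl h5
      · exact Or.inr fun j hj => (h5 j hj).trans (Nat.lt_succ_self l)
    · intro T _ hmax
      have h5 := g2 T {0} (Or.inr (fun j hj => by
        rw [mem_singleton] at hj
        omega))
      rw [pattern_eq X r H T Z Y h0 hmax]
      rw [poisson_zero] at h5
      exact h5.trans hle
    · intro hadm hk hlog
      exact h2 H hk hadm hlog
  · intro m hm hmC
    have hVlow : c'' / l' ≤ V X r := by
      have hy2 : 2 ≤ ⌊(X : ℝ) ^ (1 / (r : ℝ))⌋₊ := Nat.le_floor (by exact_mod_cast hX4)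
      refine le_trans ?_ (hVb _ hy2).1
      have hy2r : (2 : ℝ) ≤ (⌊(X : ℝ) ^ (1 / (r : ℝ))⌋₊ : ℝ) := by exact_mod_cast hy2
      apply div_le_div_of_nonneg_left hc''.le (Real.log_pos (by linarith))
      rw [hl']
      apply Real.log_le_log (by linarith)
      calc (⌊(X : ℝ) ^ (1 / (r : ℝ))⌋₊ : ℝ) ≤ (X : ℝ) ^ (1 / (r : ℝ)) :=
            Nat.floor_le (by positivity)
        _ ≤ (X : ℝ) ^ (1 : ℝ) := by
            apply Real.rpow_le_rpow_of_exponent_le hX1
            rw [div_le_one (by linarith)]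
            linarith
        _ = X := Real.rpow_one _
    have hmX : ((2 * m : ℕ) : ℝ) ≤ (X : ℝ) ^ (E + 1) := by
      have h5 : 2 * (m : ℝ) * (c'' / l') ≤ C :=
        (mul_le_mul_of_nonneg_left hVlow (by positivity)).trans hmC
      have h6 : 2 * (m : ℝ) ≤ C / c'' * l' := by
        rw [← mul_div_assoc, div_le_iff₀ hl0] at h5
        rw [div_mul_eq_mul_div, le_div_iff₀ hc'']
        exact h5
      rw [← hl'] at hX5
      push_cast
      calc 2 * (m : ℝ) ≤ X := h6.trans hX5
        _ = (X : ℝ) ^ (1 : ℝ) := (Real.rpow_one _).symm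
        _ ≤ _ := Real.rpow_le_rpow_of_exponent_le hX1 (by linarith)
    have hadm : ∀ p : ℕ, p.Prime → nuB (QH Q1 {0, 2 * m}) p < p := by
      intro p hp
      rw [nu_eq _ p hp]
      exact pair_adm m p hp
    have hdpos : 0 < density X r {0, 2 * m} := by
      rw [density_eq]
      exact Vq_pos _ hadm _
    have hDpos : 0 < Y * density X r {0, 2 * m} / (V X r * l') := by positivity
    refine ⟨mul_pos hDpos (Real.exp_pos _), ?_⟩
    obtain ⟨g1, g2⟩ := gen {0, 2 * m} (mem_insert_self _ _)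
      ((card_le_two (a := 0) (b := 2 * m)).trans (le_max_right _ _)) (by
        intro h hh
        rw [mem_insert, mem_singleton] at hh
        rcases hh with rfl | rfl
        · rw [Nat.cast_zero]
          positivity
        · exact hmX)
    have h5 := g2 (2 * m) {0} (Or.inl (by
      push_cast
      exact hmC))
    rw [next_eq X r (2 * m) Z Y (by omega), pattern_eq X r {0, 2 * m} (2 * m) Z Y
      (mem_insert_self _ _) (by
        intro h hh
        rw [mem_insert, mem_singleton] at hh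
        omega)]
    rw [poisson_zero] at h5
    push_cast at h5
    refine h5.trans ?_
    have h6 : Real.exp (-C) ≤ Real.exp (-(2 * m * V X r)) := Real.exp_le_exp.2 (by linarith)
    have h7 : ε0 ≤ ε * Real.exp (-(2 * m * V X r)) := by
      rw [hε0]
      exact mul_le_mul (min_le_left _ _) h6 hexpC0.le hε.le
    calc ε0 * (Y * density X r {0, 2 * m} / (V X r * l')) ≤
          ε * Real.exp (-(2 * m * V X r)) * (Y * density X r {0, 2 * m} / (V X r * l')) :=
            mul_le_mul_of_nonneg_right h7 hDpos.le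
      _ = _ := by ring

end Pool.Agent.Results.MP_9227d9_nt.NextAlmostPrime
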